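import Pool.Agent.Run7.h404.FL.Iface

/-! A continuous section over the set of non compact orbits: the mean of the first entrance times. -/

set_option autoImplicit false
set_option linter.unusedVariables false

namespace Run7.h841.FL

open Set Topology Filter MeasureTheory
open Run7.h404.FL

/-- a continuous flow -/
structure CFlow (Φ : ℝ → E5 → E5) : Prop where
  cont : Continuous (fun p : ℝ × E5 => Φ p.1 p.2)
  add : ∀ (s t : ℝ) (x : E5), Φ (s + t) x = Φ s (Φ t x)

section ent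

variable {Φ : ℝ → E5 → E5}

/-- the first entrance time into the closed ball of radius `r` -/
noncomputable def ent (Φ : ℝ → E5 → E5) (r : ℝ) (x : E5) : ℝ := sInf {t | ‖Φ t x‖ ≤ r}

/-- the orbit of `x` is proper and meets the open ball of radius `R` -/
structure GoodPt (Φ : ℝ → E5 → E5) (R : ℝ) (x : E5) : Prop where
  prop : ∀ r : ℝ, ∃ T : ℝ, ∀ t, ‖Φ t x‖ ≤ r → |t| ≤ T
  meet : ∃ t, ‖Φ t x‖ ≤ R

theorem ent_cpt (h : CFlow Φ) {R : ℝ} {x : E5} (hx : GoodPt Φ R x) (r : ℝ) :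
    IsCompact {t | ‖Φ t x‖ ≤ r} := by
  obtain ⟨T, hT⟩ := hx.prop r
  refine (isCompact_Icc (a := -T) (b := T)).of_isClosed_subset ?_ fun t ht => abs_le.1 (hT t ht)
  exact isClosed_le ((h.cont.comp (continuous_id.prodMk continuous_const)).norm) continuous_const

theorem ent_mem (h : CFlow Φ) {R : ℝ} {x : E5} (hx : GoodPt Φ R x) {r : ℝ} (hr : R ≤ r) :
    ‖Φ (ent Φ r x) x‖ ≤ r := by
  have hne : {t | ‖Φ t x‖ ≤ r}.Nonempty := by
    obtain ⟨t, ht⟩ := hx.meet
    exact ⟨t, ht.trans hr⟩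
  exact (ent_cpt h hx r).sInf_mem hne

theorem ent_le (h : CFlow Φ) {R : ℝ} {x : E5} (hx : GoodPt Φ R x) {r t : ℝ} (ht : ‖Φ t x‖ ≤ r) :
    ent Φ r x ≤ t :=
  csInf_le (ent_cpt h hx r).bddBelow ht

theorem ent_anti (h : CFlow Φ) {R : ℝ} {x : E5} (hx : GoodPt Φ R x) {r r' : ℝ} (hr : R ≤ r)
    (hrr : r ≤ r') : ent Φ r' x ≤ ent Φ r x :=
  ent_le h hx ((ent_mem h hx hr).trans hrr)

theorem GoodPt.flow (h : CFlow Φ) {R : ℝ} {x : E5} (hx : GoodPt Φ R x) (s : ℝ) :
    GoodPt Φ R (Φ s x) := by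
  refine ⟨fun r => ?_, ?_⟩
  · obtain ⟨T, hT⟩ := hx.prop r
    refine ⟨T + |s|, fun t ht => ?_⟩
    rw [← h.add] at ht
    have h1 := hT _ ht
    have h2 : |t| ≤ |t + s| + |s| := by
      calc |t| = |(t + s) - s| := by ring_nf
        _ ≤ _ := abs_sub _ _
    linarith
  · obtain ⟨t, ht⟩ := hx.meet
    refine ⟨t - s, ?_⟩
    rwa [← h.add, sub_add_cancel]

theorem ent_flow (h : CFlow Φ) {R : ℝ} {x : E5} (hx : GoodPt Φ R x) {r : ℝ} (hr : R ≤ r) (s : ℝ) :
    ent Φ r (Φ s x) = ent Φ r x - s := by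
  apply le_antisymm
  · apply ent_le h (hx.flow h s)
    rw [← h.add, sub_add_cancel]
    exact ent_mem h hx hr
  · have h1 := ent_mem h (hx.flow h s) hr
    rw [← h.add] at h1
    have := ent_le h hx h1
    linarith

/-- the mean entrance time -/
noncomputable def mean (Φ : ℝ → E5 → E5) (R : ℝ) (x : E5) : ℝ :=
  ∫ r in (R + 1)..(R + 2), ent Φ (max r R) x

theorem anti' (h : CFlow Φ) {R : ℝ} {x : E5} (hx : GoodPt Φ R x) :
    Antitone (fun r => ent Φ (max r R) x) := fun r r' hrr =>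
  ent_anti h hx (le_max_right _ _) (max_le_max hrr le_rfl)

theorem mean_flow (h : CFlow Φ) {R : ℝ} {x : E5} (hx : GoodPt Φ R x) (s : ℝ) :
    mean Φ R (Φ s x) = mean Φ R x - s := by
  have e : ∀ r, ent Φ (max r R) (Φ s x) = ent Φ (max r R) x - s := fun r =>
    ent_flow h hx (le_max_right _ _) s
  simp only [mean, e]
  rw [intervalIntegral.integral_sub ((anti' h hx).intervalIntegrable)
    intervalIntegrable_const, intervalIntegral.integral_const]
  simp only [smul_eq_mul]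
  ring

/-- continuity along normalised sequences -/
theorem mean_tendsto (h : CFlow Φ) {R : ℝ} {y : ℕ → E5} {y₀ : E5} (hy : Tendsto y atTop (𝓝 y₀))
    (hg : ∀ n, GoodPt Φ R (y n)) (hg0 : GoodPt Φ R y₀) (hn : ∀ n, ent Φ (R + 2) (y n) = 0) :
    Tendsto (fun n => mean Φ R (y n)) atTop (𝓝 (mean Φ R y₀)) := by
  have hup : ∀ r r' : ℝ, R ≤ r' → r' < r → ∀ᶠ n in atTop, ent Φ r (y n) ≤ ent Φ r' y₀ := by
    intro r r' hr' hrr
    have hc : Continuous (fun x : E5 => ‖Φ (ent Φ r' y₀) x‖) :=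
      (h.cont.comp (continuous_const.prodMk continuous_id)).norm
    have h1 : ‖Φ (ent Φ r' y₀) y₀‖ < r := lt_of_le_of_lt (ent_mem h hg0 hr') hrr
    filter_upwards [(hc.tendsto y₀).comp hy |>.eventually (gt_mem_nhds h1)] with n hn'
    exact ent_le h (hg n) hn'.le
  have hlow0 : ∀ r n, R ≤ r → r ≤ R + 2 → 0 ≤ ent Φ r (y n) := by
    intro r n hr hr'
    rw [← hn n]
    exact ent_anti h (hg n) hr hr'
  have hlow : ∀ r t : ℝ, R ≤ r → r ≤ R + 2 → t < ent Φ r y₀ →
      ∀ᶠ n in atTop, t < ent Φ r (y n) := by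
    intro r t hr hr' ht
    have h1 : ∀ t' ∈ Icc (0 : ℝ) t, ∀ᶠ q : E5 × ℝ in 𝓝 (y₀, t'), r < ‖Φ q.2 q.1‖ := by
      intro t' ht'
      have h2 : r < ‖Φ t' y₀‖ := by
        by_contra hcon
        have := ent_le h hg0 (not_lt.1 hcon)
        linarith [ht'.2]
      have hc : Continuous (fun q : E5 × ℝ => ‖Φ q.2 q.1‖) :=
        (h.cont.comp (continuous_snd.prodMk continuous_fst)).norm
      exact (hc.tendsto (y₀, t')).eventually (lt_mem_nhds h2)
    have h2 : ∀ᶠ x in 𝓝 y₀, ∀ t' ∈ Icc (0 : ℝ) t, r < ‖Φ t' x‖ :=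
      isCompact_Icc.eventually_forall_of_forall_eventually h1
    filter_upwards [hy.eventually h2] with n hn'
    by_contra hcon
    have h3 := hn' (ent Φ r (y n)) ⟨hlow0 r n hr hr', not_lt.1 hcon⟩
    exact absurd (ent_mem h (hg n) hr) (not_le.2 h3)
  have hcount : ∀ᵐ r : ℝ, ContinuousAt (fun r => ent Φ (max r R) y₀) r := by
    have := (anti' h hg0).countable_not_continuousAt
    exact this.ae_notMem volume |>.mono fun r hr => by simpa using hr
  refine intervalIntegral.tendsto_integral_filter_of_dominated_convergence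
    (fun _ => |ent Φ R y₀|) ?_ ?_ intervalIntegrable_const ?_
  · exact Eventually.of_forall fun n => (anti' h (hg n)).measurable.aestronglyMeasurable
  · filter_upwards [hup (R + 1) R le_rfl (by linarith)] with n hn'
    refine Eventually.of_forall fun r hr => ?_
    rw [uIoc_of_le (by linarith)] at hr
    have e : max r R = r := max_eq_left (by linarith [hr.1])
    rw [e, Real.norm_eq_abs, abs_of_nonneg (hlow0 r n (by linarith [hr.1]) hr.2)]
    calc ent Φ r (y n) ≤ ent Φ (R + 1) (y n) := ent_anti h (hg n) (by linarith) hr.1.le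
      _ ≤ ent Φ R y₀ := hn'
      _ ≤ _ := le_abs_self _
  · filter_upwards [hcount] with r hr hrI
    rw [uIoc_of_le (by linarith)] at hrI
    have e : max r R = r := max_eq_left (by linarith [hrI.1])
    rw [e, tendsto_order]
    constructor
    · intro t ht
      exact hlow r t (by linarith [hrI.1]) hrI.2 ht
    · intro t ht
      have h1 : ∀ᶠ r' in 𝓝 r, ent Φ (max r' R) y₀ < t := by
        have := hr.tendsto.eventually (gt_mem_nhds (by simpa [e] using ht) :
          ∀ᶠ v in 𝓝 (ent Φ (max r R) y₀), v < t)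
        exact this
      have h2 : ∀ᶠ r' in 𝓝[<] r, ent Φ (max r' R) y₀ < t ∧ R + 1 < r' ∧ r' < r := by
        refine (h1.filter_mono nhdsWithin_le_nhds).and ?_
        have h3 : ∀ᶠ r' in 𝓝[<] r, R + 1 < r' :=
          (lt_mem_nhds hrI.1).filter_mono nhdsWithin_le_nhds
        exact h3.and self_mem_nhdsWithin
      obtain ⟨r', h3, h4, h5⟩ := h2.exists
      have e' : max r' R = r' := max_eq_left (by linarith)
      rw [e'] at h3
      filter_upwards [hup r r' (by linarith) h5] with n hn'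
      exact lt_of_le_of_lt hn' h3

end ent

theorem t_SECL (hPRO : S_PRO) (hNEAR : S_NEAR) : S_SECL := by
  intro Q _ _ Φ p hp
  classical
  obtain ⟨-, -, hL, -⟩ := hNEAR Q Φ p hp
  have h : CFlow Φ := ⟨hp.cont, hp.add⟩
  -- all fibres over `L` meet a fixed ball
  obtain ⟨R, hR⟩ : ∃ R : ℝ, ∀ q, ¬ Cp p q → ∃ x, p x = q ∧ ‖x‖ < R := by
    obtain ⟨t, ht⟩ := hL.isCompact.elim_directed_cover (fun n : ℕ => p '' Metric.ball 0 n)
      (fun n => hp.popen _ Metric.isOpen_ball) (by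
        intro q hq
        obtain ⟨x, rfl⟩ := hp.psurj q
        obtain ⟨n, hn⟩ := exists_nat_gt ‖x‖
        exact mem_iUnion.2 ⟨n, x, by simpa using hn, rfl⟩)
      (directed_of_isDirected_le fun i j hij => image_mono
        (Metric.ball_subset_ball (by exact_mod_cast hij)))
    refine ⟨t, fun q hq => ?_⟩
    obtain ⟨x, hx, rfl⟩ := ht hq
    exact ⟨x, rfl, by simpa using hx⟩
  have hgood : ∀ x, ¬ Cp p (p x) → GoodPt Φ R x := by
    intro x hx
    refine ⟨fun r => ?_, ?_⟩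
    · obtain ⟨T, -, hT⟩ := ((hPRO Q Φ p hp x).2 hx).2 (Metric.closedBall 0 r)
        (isCompact_closedBall 0 r)
      refine ⟨T, fun t ht => ?_⟩
      by_contra hcon
      exact hT t (not_le.1 hcon).le (by simpa using ht)
    · obtain ⟨y, hy, hyR⟩ := hR _ hx
      obtain ⟨t, rfl⟩ := (hp.fib x y).1 hy.symm
      exact ⟨t, hyR.le⟩
  have hpf : ∀ t x, p (Φ t x) = p x := fun t x => ((hp.fib x _).2 ⟨t, rfl⟩).symm
  have hsm : ∀ x, ¬ Cp p (p x) → ∀ t, Φ (mean Φ R (Φ t x)) (Φ t x) = Φ (mean Φ R x) x := by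
    intro x hx t
    rw [mean_flow h (hgood x hx), ← h.add, sub_add_cancel]
  choose c hc using hp.psurj
  refine ⟨fun q => Φ (mean Φ R (c q)) (c q), fun q hq => by rw [hpf, hc], ?_⟩
  intro q₀ hq₀
  have hcg : ∀ q, ¬ Cp p q → ¬ Cp p (p (c q)) := fun q hq => by rwa [hc]
  rw [ContinuousWithinAt, tendsto_iff_seq_tendsto]
  intro q hq
  have hqn : ∀ᶠ n in atTop, ¬ Cp p (q n) := hq.eventually self_mem_nhdsWithin
  have hq' : Tendsto q atTop (𝓝 q₀) := hq.mono_right nhdsWithin_le_nhds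
  apply tendsto_of_subseq_tendsto
  intro ns hns
  -- normalised points
  obtain ⟨N, hN⟩ := eventually_atTop.1 (hns.eventually hqn)
  let y : ℕ → E5 := fun n => Φ (ent Φ (R + 2) (c (q (ns (n + N))))) (c (q (ns (n + N))))
  have hyL : ∀ n, ¬ Cp p (p (c (q (ns (n + N))))) := fun n => hcg _ (hN _ (by omega))
  have hpy : ∀ n, p (y n) = q (ns (n + N)) := fun n => by rw [hpf, hc]
  have hyb : ∀ n, y n ∈ Metric.closedBall (0 : E5) (R + 2) := by
    intro n
    simpa using ent_mem h (hgood _ (hyL n)) (show R ≤ R + 2 by linarith)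
  obtain ⟨y₀, -, φ, hφ, hlim⟩ := (isCompact_closedBall (0 : E5) (R + 2)).tendsto_subseq hyb
  have hnsN : Tendsto (fun n => ns (φ n + N)) atTop atTop :=
    hns.comp ((tendsto_add_atTop_nat N).comp hφ.tendsto_atTop)
  have hpy0 : p y₀ = q₀ := by
    have h1 : Tendsto (fun n => p (y (φ n))) atTop (𝓝 (p y₀)) :=
      (hp.pcont.tendsto y₀).comp hlim
    have h2 : Tendsto (fun n => p (y (φ n))) atTop (𝓝 q₀) := by
      simp only [hpy]
      exact hq'.comp hnsN
    exact tendsto_nhds_unique h1 h2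
  have hy0L : ¬ Cp p (p y₀) := by rw [hpy0]; exact hq₀
  have hmean := mean_tendsto h hlim (fun n => hgood _ (by
    rw [Function.comp, hpy]
    exact hN _ (by omega))) (hgood y₀ hy0L) (fun n => by
      change ent Φ (R + 2) (Φ _ _) = 0
      rw [ent_flow h (hgood _ (hyL (φ n))) (by linarith), sub_self])
  refine ⟨fun n => φ n + N, ?_⟩
  have e1 : ∀ n, Φ (mean Φ R (c (q (ns (φ n + N))))) (c (q (ns (φ n + N)))) =
      Φ (mean Φ R (y (φ n))) (y (φ n)) := fun n => (hsm _ (hyL (φ n)) _).symm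
  have e2 : Φ (mean Φ R (c q₀)) (c q₀) = Φ (mean Φ R y₀) y₀ := by
    obtain ⟨t, ht⟩ := (hp.fib (c q₀) y₀).1 (by rw [hc, hpy0])
    rw [← ht]
    exact (hsm _ (hcg _ hq₀) _).symm
  simp only [Function.comp, e1, e2]
  exact (h.cont.tendsto (mean Φ R y₀, y₀)).comp (hmean.prodMk_nhds hlim)

end Run7.h841.FL
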